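import Mathlib

/-!
# Artin induction for fixed point counts

For a finite group `G` there are finite families of cyclic subgroups `C i`, `D j` and `n > 0` with
`n + ∑ i, |(G/C i)^g| = ∑ j, |(G/D j)^g|` for all `g`.
-/

set_option autoImplicit false

namespace Pool.Agent.Lib_helper98.SH

open Finset

theorem exists_weights {P : Type*} [PartialOrder P] [Fintype P] [DecidableLE P] (f : P → ℤ) :
    ∃ n : P → ℤ, ∀ e, ∑ d ∈ univ.filter (fun d => e ≤ d), n d = f e := by
  classical
  have wf : WellFounded (fun a b : P => b < a) := wellFounded_gt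
  let F : ∀ e : P, (∀ d : P, e < d → ℤ) → ℤ := fun e rec =>
    f e - ∑ d ∈ (univ.filter (fun d => e < d)).attach, rec d.1 (Finset.mem_filter.mp d.2).2
  refine ⟨wf.fix F, fun e => ?_⟩
  have h1 : wf.fix F e = f e - ∑ d ∈ univ.filter (fun d => e < d), wf.fix F d := by
    rw [wf.fix_eq]
    change f e - ∑ d ∈ (univ.filter (fun d => e < d)).attach, wf.fix F d.1 = _
    rw [Finset.sum_attach (univ.filter (fun d => e < d)) (fun d => wf.fix F d)]
  have h2 : univ.filter (fun d => e ≤ d) = insert e (univ.filter (fun d => e < d)) := by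
    ext d
    simp only [mem_filter, mem_univ, true_and, mem_insert, le_iff_eq_or_lt, eq_comm]
  rw [h2, Finset.sum_insert (by simp), h1]
  ring

variable (G : Type*) [Group G] [Finite G]

open MulAction

omit [Finite G] in
/-- the number of `x` with `x⁻¹ g x ∈ D` is `|D| |(G/D)^g|`. -/
theorem card_conj_mem (D : Subgroup G) (g : G) :
    Nat.card {x : G // x⁻¹ * g * x ∈ D} = Nat.card D * Nat.card (fixedBy (G ⧸ D) g) := by
  rw [← Nat.card_prod]
  refine Nat.card_congr ?_
  refine Equiv.trans (Equiv.subtypeEquivRight fun x => ?_)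
    (QuotientGroup.preimageMkEquivSubgroupProdSet D (fixedBy (G ⧸ D) g))
  change _ ↔ g • ((x : G) : G ⧸ D) = (x : G ⧸ D)
  rw [MulAction.Quotient.smul_coe, smul_eq_mul, eq_comm, QuotientGroup.eq, mul_assoc]

/-- cyclic subgroups -/
abbrev Cyc := {D : Subgroup G // IsCyclic D}

noncomputable instance : Fintype (Cyc G) := by
  classical
  exact Fintype.ofFinite _

/-- Artin's induction theorem in terms of fixed point counts. -/
theorem exists_artin : ∃ c : Cyc G → ℤ, ∀ g : G,
    ∑ D, c D * (Nat.card (fixedBy (G ⧸ D.1) g) : ℤ) = Nat.card G := by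
  classical
  have : Fintype G := Fintype.ofFinite G
  obtain ⟨n, hn⟩ := exists_weights (P := Cyc G) (fun _ => 1)
  refine ⟨fun D => n D * Nat.card D.1, fun g => ?_⟩
  have h1 : ∀ h : G, ∑ D : Cyc G, (if h ∈ D.1 then n D else 0) = 1 := by
    intro h
    rw [← hn ⟨Subgroup.zpowers h, inferInstance⟩, Finset.sum_filter]
    refine Finset.sum_congr rfl fun D _ => ?_
    have : (h ∈ D.1) ↔ ((⟨Subgroup.zpowers h, inferInstance⟩ : Cyc G) ≤ D) := by
      change _ ↔ Subgroup.zpowers h ≤ D.1
      rw [Subgroup.zpowers_le]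
    simp only [this]
  calc ∑ D : Cyc G, n D * (Nat.card D.1 : ℤ) * (Nat.card (fixedBy (G ⧸ D.1) g) : ℤ)
      = ∑ D : Cyc G, ∑ x : G, (if x⁻¹ * g * x ∈ D.1 then n D else 0) := by
        refine Finset.sum_congr rfl fun D _ => ?_
        rw [mul_assoc, ← Nat.cast_mul, ← card_conj_mem, ← Finset.sum_filter, Finset.sum_const,
          nsmul_eq_mul, mul_comm]
        congr 2
        rw [Nat.card_eq_fintype_card, Fintype.card_subtype]
    _ = ∑ x : G, ∑ D : Cyc G, (if x⁻¹ * g * x ∈ D.1 then n D else 0) := Finset.sum_comm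
    _ = Nat.card G := by simp [h1]

/-- Families version: `n` points together with the `G/C i` have the same numbers of fixed
points as the `G/D j`. -/
theorem exists_families (G : Type) [Group G] [Finite G] :
    ∃ (n : ℕ) (_ : 0 < n) (I J : Type) (_ : Fintype I) (_ : Fintype J)
    (C : I → Subgroup G) (D : J → Subgroup G), (∀ i, IsCyclic (C i)) ∧ (∀ j, IsCyclic (D j)) ∧
    ∀ g : G, n + ∑ i, Nat.card (fixedBy (G ⧸ C i) g) = ∑ j, Nat.card (fixedBy (G ⧸ D j) g) := by
  classical
  obtain ⟨c, hc⟩ := exists_artin G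
  refine ⟨Nat.card G, Nat.card_pos, Σ D : Cyc G, Fin (-c D).toNat, Σ D : Cyc G, Fin (c D).toNat,
    inferInstance, inferInstance, fun i => i.1.1, fun j => j.1.1, fun i => i.1.2, fun j => j.1.2,
    fun g => ?_⟩
  have h := hc g
  have e : ∀ k : Cyc G → ℕ, ∑ i : (Σ D : Cyc G, Fin (k D)),
      Nat.card (fixedBy (G ⧸ (i.1 : Cyc G).1) g) =
      ∑ D : Cyc G, k D * Nat.card (fixedBy (G ⧸ D.1) g) := by
    intro k
    rw [Fintype.sum_sigma]
    refine Finset.sum_congr rfl fun D _ => ?_
    change ∑ _y : Fin (k D), Nat.card (fixedBy (G ⧸ D.1) g) = _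
    rw [Finset.sum_const, Finset.card_univ, Fintype.card_fin, smul_eq_mul]
  rw [e, e]
  zify
  rw [← h, ← Finset.sum_add_distrib]
  refine Finset.sum_congr rfl fun D _ => ?_
  rw [← add_mul, Int.toNat_eq_max, Int.toNat_eq_max]
  congr 1
  rcases le_total 0 (c D) with h0 | h0
  · rw [max_eq_right (by omega), max_eq_left h0, add_zero]
  · rw [max_eq_left (by omega), max_eq_right h0]
    ring

end Pool.Agent.Lib_helper98.SH
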